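import Mathlib
import Pool.Agent.R126.BoolLD
import Pool.Agent.Y345.LD.Main

/-!
# The local dimension of Boolean lattices

`ldim` is the local dimension and `IsLocalRealizer`, `PartialLinearExtension` are the notions of the
problem, as defined in the starting file `MP_33e188_co.MaxLocalDimension`.  The Boolean lattice of
rank `n` is `Finset (Fin n)`, ordered by inclusion.

The local dimension of the Boolean lattice of rank `n ≥ 1` is `n` exactly for `n ≤ 3`.  The Boolean
lattice of rank four has local dimension three: there is an explicit local realizer with four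
members in which every element occurs at most three times.  Products of local realizers give
`ldim ≤ n - ⌊n / 4⌋` for all `n`.
-/

set_option autoImplicit false

namespace Pool.Agent.Results.MP_666a49_co.BooleanLattice

open Pool.Agent.Results.MP_33e188_co.MaxLocalDimension Pool.Agent.Y345.LD Pool.Agent.R126.BoolLD

theorem result :
    (∀ n : ℕ, 1 ≤ n → (ldim (Finset (Fin n)) = n ↔ n ≤ 3)) ∧
    ldim (Finset (Fin 4)) = 3 ∧
    ∀ n : ℕ, ldim (Finset (Fin n)) ≤ n - n / 4 := by
  have hle : ∀ n : ℕ, ldim (Finset (Fin n)) ≤ n - n / 4 := fun n => ldim_le (loc_bool n)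
  refine ⟨?_, ?_, hle⟩
  · intro n hn
    constructor
    · intro h
      have := hle n
      by_contra hcon
      omega
    · intro h
      apply le_antisymm (ldim_le (loc_self n))
      have hl : Loc (Finset (Fin n)) (ldim (Finset (Fin n))) := loc_ldim
      obtain rfl | rfl | rfl : n = 1 ∨ n = 2 ∨ n = 3 := by omega
      · exact loc_ge_one hl
      · exact loc_ge_two hl
      · exact loc_ge_three le_rfl hl
  · have hl : Loc (Finset (Fin 4)) (ldim (Finset (Fin 4))) := loc_ldim
    exact le_antisymm (ldim_le loc_four) (loc_ge_three (by norm_num) hl)

end Pool.Agent.Results.MP_666a49_co.BooleanLattice
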